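import Mathlib
import Pool.Agent.P.MP_af5c07_al.AskDefs
import Pool.Agent.P.MP_af5c07_al.AskNecM

/-!
Classification, over an arbitrary field and for arbitrary scalars, of the irreducible
Askey-Wilson modules of polynomial type (finite or countably infinite dimension), organised by the
Askey scheme.
-/

namespace Pool.Agent.Results.MP_af5c07_al.AskeyScheme

open Module Pool.Agent.P.MP_af5c07_al

universe u v w

theorem result (K : Type u) [Field K] (p : Par K) :
    (∀ (V : Type v) [AddCommGroup V] [Module K V] (A B : End K V),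
      (AW1 p A B ∧ AW2 p A B ∧ Irr A B ∧ PolyType A B) ↔
        ∃ D : Data K, Listed p D ∧ Realizes D A B) ∧
    (∀ D : Data K, ∃ A B : End K ({i : ℤ // D.In i} →₀ K), Realizes D A B) ∧
    (∀ (V : Type v) [AddCommGroup V] [Module K V] (A B : End K V)
      (V' : Type w) [AddCommGroup V'] [Module K V'] (A' B' : End K V') (D E : Data K),
      Listed p D → Realizes D A B → Listed p E → Realizes E A' B' →
        (Iso A B A' B' ↔ Equi p D E)) ∧
    (∀ D : Data K, Askey p D ↔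
      D.In 1 ∧ Sol p D ∧ D.Inj ∧ ¬ (D.t (-1) = D.t 1 ∧ D.t 2 = D.t 0)) := by
  refine ⟨fun V _ _ A B => ⟨?_, ?_⟩, exists_realizes, ?_, fun D => askey_iff⟩
  · rintro ⟨h1, h2, h3, h4⟩
    obtain ⟨D, hD, ⟨H⟩⟩ := exists_sol h4 h3.1 h1 h2
    obtain ⟨E, a1, a2, a3⟩ := exists_good hD H h3
    exact ⟨E, listed_iff.2 ⟨a1, a2⟩, a3⟩
  · rintro ⟨D, hl, hr⟩
    obtain ⟨hs, hg⟩ := listed_iff.1 hl
    obtain ⟨H⟩ := hr.ctx
    obtain ⟨h1, h2⟩ := H.AW_of_raw hs.1 p (raw_of_sol hs)
    exact ⟨h1, h2, H.irr_of_good hs hg, hr.polyType hs.1⟩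
  · intro V _ _ A B V' _ _ A' B' D E hl hr hl' hr'
    obtain ⟨H⟩ := hr.ctx
    obtain ⟨H'⟩ := hr'.ctx
    exact iso_iff H H' (listed_iff.1 hl).1 (listed_iff.1 hl').1 (listed_iff.1 hl).2

end Pool.Agent.Results.MP_af5c07_al.AskeyScheme
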